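import Pool.Agent.HS38.TT.Grow

/-!
# A large class of leading parts with long blocks
-/

set_option autoImplicit false

open Finset Filter Topology

namespace Pool.Agent.HS38.TT

variable {Q : Type}

/-- the class of the leading part: its behaviour and the lengths of the words -/
noncomputable def cls (T : Transducer Q) (k a : ℕ) : (Q → Option (Option Q)) × (Q → ℕ) :=
  (beh T k a, fun q => (wd T k a q).length)

lemma len_cmp {T : Transducer Q} {k : ℕ} (hk : 2 ≤ k) {f : ℕ → List ℤ} (hT : T.Computes k f)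
    {a a' s K : ℕ} (hs : 1 ≤ s) (ha : 1 ≤ a) (ha' : 1 ≤ a') (hab : beh T k a' = beh T k a)
    (hw : ∀ q, wd T k a' q = [] → wd T k a q = []) (hK1 : 1 ≤ K)
    (hK : ∀ q, (wd T k a q).length ≤ K) : (blk f k a s).length ≤ K * (blk f k a' s).length := by
  obtain ⟨π, hπ⟩ := pat2 hk hT hs ha
  rw [hπ a ha rfl, hπ a' ha' hab]
  apply ev_cmp hK1
  intro q
  by_cases h : wd T k a' q = []
  · rw [hw q h]
    simp
  · have h1 : 1 ≤ (wd T k a' q).length := List.length_pos_iff.2 h
    calc (wd T k a q).length ≤ K * 1 := by rw [mul_one]; exact hK q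
      _ ≤ K * (wd T k a' q).length := Nat.mul_le_mul_left _ h1

lemma len_cls {T : Transducer Q} {k : ℕ} (hk : 2 ≤ k) {f : ℕ → List ℤ} (hT : T.Computes k f)
    {a a' s : ℕ} (hs : 1 ≤ s) (ha : 1 ≤ a) (ha' : 1 ≤ a') (h : cls T k a' = cls T k a) :
    (blk f k a s).length = (blk f k a' s).length := by
  obtain ⟨π, hπ⟩ := pat2 hk hT hs ha
  rw [hπ a ha rfl, hπ a' ha' (congrArg Prod.fst h)]
  apply ev_len
  intro q
  exact (congrFun (congrArg Prod.snd h) q).symm

open Classical in
/-- one scale -/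
lemma one_scale [Fintype Q] {T : Transducer Q} {k : ℕ} (hk : 2 ≤ k) {f : ℕ → List ℤ}
    (hT : T.Computes k f) {c0 m s K R : ℕ} (hs : 1 ≤ s)
    (hc0 : ∀ a, 1 ≤ a → ∃ a', 1 ≤ a' ∧ a' < k ^ c0 ∧ beh T k a' = beh T k a ∧
      ∀ q, wd T k a' q = [] → wd T k a q = []) (hK1 : 1 ≤ K)
    (hK : ∀ a, a < k ^ m → ∀ q, (wd T k a q).length ≤ K)
    (hbig : 2 * ((Fintype.card (Q → Option (Option Q)) * (K + 1) ^ Fintype.card Q) * R * K + 1) *
      tot f (k ^ (c0 + s)) ≤ tot f (k ^ (m + s))) (hpos : 0 < tot f (k ^ (m + s))) :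
    ∃ a ∈ Ico 1 (k ^ m), R < ((Ico 1 (k ^ m)).filter (fun a' => cls T k a' = cls T k a)).card ∧
      tot f (k ^ (m + s)) ≤ 2 * k ^ m * (blk f k a s).length := by
  by_contra hcon
  push Not at hcon
  set Λ := tot f (k ^ (m + s)) with hΛ
  set u := tot f (k ^ (c0 + s)) with hu
  set Kc := Fintype.card (Q → Option (Option Q)) * (K + 1) ^ Fintype.card Q with hKc
  set S := Ico 1 (k ^ m) with hS
  set good := S.filter (fun a => R < (S.filter (fun a' => cls T k a' = cls T k a)).card) with hgood
  set bad := S.filter (fun a => ¬ R < (S.filter (fun a' => cls T k a' = cls T k a)).card) with hbad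
  have hsum : Λ = (blk f k 0 s).length + ∑ a ∈ S, (blk f k a s).length := by
    rw [hΛ, pow_add, tot_sum, range_eq_Ico, sum_eq_sum_Ico_succ_bot (by positivity)]
  have hsplit : ∑ a ∈ S, (blk f k a s).length =
      ∑ a ∈ good, (blk f k a s).length + ∑ a ∈ bad, (blk f k a s).length :=
    (sum_filter_add_sum_filter_not S _ _).symm
  -- the blocks are not too long
  have hu0 : (blk f k 0 s).length ≤ u := by
    have h1 : (blk f k 0 s).length = tot f (k ^ s) := by
      have := tot_blk f k 0 s
      simp only [zero_add, one_mul, zero_mul] at this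
      rw [this]
      simp [tot]
    rw [h1, hu]
    exact tot_mono f (Nat.pow_le_pow_right (by omega) (by omega))
  have hmax : ∀ a ∈ S, (blk f k a s).length ≤ K * u := by
    intro a ha
    rw [hS, Finset.mem_Ico] at ha
    obtain ⟨a', h1, h2, h3, h4⟩ := hc0 a ha.1
    refine (len_cmp hk hT hs ha.1 h1 h3 h4 hK1 (hK a ha.2)).trans (Nat.mul_le_mul_left _ ?_)
    rw [hu, pow_add, tot_sum]
    exact single_le_sum (f := fun a => (blk f k a s).length) (fun _ _ => Nat.zero_le _)
      (mem_range.2 h2)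
  -- few bad ones
  have hbadc : bad.card ≤ Kc * R := by
    have h1 : bad.card ≤ R * (bad.image (cls T k)).card := by
      apply card_le_mul_card_image
      intro v hv
      rw [mem_image] at hv
      obtain ⟨a, ha, rfl⟩ := hv
      have h2 := (mem_filter.1 ha).2
      push Not at h2
      refine le_trans (card_le_card ?_) h2
      intro z hz
      rw [mem_filter] at hz ⊢
      exact ⟨(mem_filter.1 hz.1).1, hz.2⟩
    have h2 : (bad.image (cls T k)).card ≤ Kc := by
      have h3 : bad.image (cls T k) ⊆ (univ : Finset (Q → Option (Option Q))) ×ˢ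
          (Fintype.piFinset fun _ : Q => range (K + 1)) := by
        intro v hv
        rw [mem_image] at hv
        obtain ⟨a, ha, rfl⟩ := hv
        rw [mem_product, Fintype.mem_piFinset]
        refine ⟨mem_univ _, fun q => mem_range.2 ?_⟩
        have h4 := (Finset.mem_Ico.1 (mem_filter.1 ha).1).2
        exact Nat.lt_succ_of_le (hK a h4 q)
      refine (card_le_card h3).trans ?_
      rw [card_product, Fintype.card_piFinset, prod_const, card_univ, card_range, card_univ]
    calc bad.card ≤ R * (bad.image (cls T k)).card := h1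
      _ ≤ R * Kc := Nat.mul_le_mul_left _ h2
      _ = Kc * R := mul_comm _ _
  have hbads : ∑ a ∈ bad, (blk f k a s).length ≤ Kc * R * K * u := by
    calc ∑ a ∈ bad, (blk f k a s).length ≤ ∑ a ∈ bad, K * u :=
          sum_le_sum fun a ha => hmax a (mem_filter.1 ha).1
      _ = bad.card * (K * u) := by rw [sum_const, smul_eq_mul]
      _ ≤ Kc * R * (K * u) := Nat.mul_le_mul_right _ hbadc
      _ = Kc * R * K * u := by ring
  have hgoods : 2 * k ^ m * ∑ a ∈ good, (blk f k a s).length ≤ good.card * Λ := by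
    rw [mul_sum]
    calc ∑ a ∈ good, 2 * k ^ m * (blk f k a s).length ≤ ∑ a ∈ good, Λ := by
          apply sum_le_sum
          intro a ha
          have h1 := mem_filter.1 ha
          exact (hcon a h1.1 h1.2).le
      _ = good.card * Λ := by rw [sum_const, smul_eq_mul]
  have hgc : good.card + 1 ≤ k ^ m := by
    have h1 : good.card ≤ S.card := card_le_card (filter_subset _ _)
    rw [hS, Nat.card_Ico] at h1
    have : 0 < k ^ m := by positivity
    omega
  -- the contradiction
  have h1 : 2 * k ^ m * ∑ a ∈ good, (blk f k a s).length ≤ k ^ m * Λ - Λ := by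
    refine hgoods.trans ?_
    rw [← Nat.sub_one_mul]
    exact Nat.mul_le_mul_right _ (by omega)
  have hkm : 0 < k ^ m := by positivity
  have h2 : k ^ m * Λ ≥ Λ := Nat.le_mul_of_pos_left _ hkm
  have h3 : 2 * (∑ a ∈ good, (blk f k a s).length) * k ^ m < Λ * k ^ m := by
    have : 2 * (∑ a ∈ good, (blk f k a s).length) * k ^ m = 2 * k ^ m * ∑ a ∈ good, (blk f k a s).length := by
      ring
    rw [this, mul_comm Λ]
    omega
  have h4 : 2 * (∑ a ∈ good, (blk f k a s).length) < Λ := lt_of_mul_lt_mul_right h3 (Nat.zero_le _)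
  have h5 : 2 * (Kc * R * K + 1) * u = 2 * (Kc * R * K * u) + 2 * u := by ring
  rw [h5] at hbig
  omega

open Classical in
/-- **A large class with long blocks.** -/
theorem growth [Finite Q] {T : Transducer Q} {k : ℕ} (hk : 2 ≤ k) {f : ℕ → List ℤ}
    (hT : T.Computes k f) {δ : ℝ} (hδ : 0 < δ)
    (hgrow : ∀ᶠ N : ℕ in atTop, (N : ℝ) ^ δ ≤ tot f N) (R : ℕ) :
    ∃ (m a : ℕ), a ∈ Ico 1 (k ^ m) ∧
      R < ((Ico 1 (k ^ m)).filter (fun a' => cls T k a' = cls T k a)).card ∧
      ∃ᶠ s : ℕ in atTop, tot f (k ^ (m + s)) ≤ 2 * k ^ m * (blk f k a s).length := by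
  have := Fintype.ofFinite Q
  obtain ⟨W, hW⟩ := exists_W T k hk List.length
  obtain ⟨c0, hc0⟩ := exists_rep T k hk
  have hk1 : (1 : ℝ) < k := by exact_mod_cast (by omega : 1 < k)
  set ρ : ℝ := (k : ℝ) ^ (δ / 2) with hρdef
  have hρ : 1 < ρ := Real.one_lt_rpow hk1 (by positivity)
  set q := Fintype.card Q with hq
  set C1 := Fintype.card (Q → Option (Option Q)) with hC1
  -- the bound for the lengths is `K m = (W q + 1) (m + 1)`
  obtain ⟨m, hm1, hm2⟩ := poly_exp (2 * (C1 * (W * q + 2) ^ q * R * (W * q + 1) + 1)) (q + 1) c0 hρ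
  set K := (W * q + 1) * (m + 1) with hK
  set G := 2 * ((C1 * (K + 1) ^ q) * R * K + 1) with hG
  have hGle : (G : ℝ) ≤ ρ ^ (m - c0) := by
    refine le_trans ?_ hm2
    have h1 : G ≤ (2 * (C1 * (W * q + 2) ^ q * R * (W * q + 1) + 1)) * (m + 1) ^ (q + 1) := by
      have h2 : K + 1 ≤ (W * q + 2) * (m + 1) := by
        rw [hK]
        nlinarith
      have h3 : (K + 1) ^ q ≤ (W * q + 2) ^ q * (m + 1) ^ q := by
        rw [← mul_pow]
        exact Nat.pow_le_pow_left h2 q
      have h4 : 1 ≤ (m + 1) ^ (q + 1) := Nat.one_le_pow _ _ (by omega)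
      calc G = 2 * ((C1 * (K + 1) ^ q) * R * K) + 2 := by rw [hG]; ring
        _ ≤ 2 * ((C1 * ((W * q + 2) ^ q * (m + 1) ^ q)) * R * ((W * q + 1) * (m + 1))) +
            2 * (m + 1) ^ (q + 1) := by
          apply Nat.add_le_add
          · apply Nat.mul_le_mul_left
            apply Nat.mul_le_mul_right
            apply Nat.mul_le_mul_right
            exact Nat.mul_le_mul_left _ h3
          · omega
        _ = (2 * (C1 * (W * q + 2) ^ q * R * (W * q + 1) + 1)) * (m + 1) ^ (q + 1) := by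
          rw [pow_succ (m + 1) q]
          ring
    exact_mod_cast h1
  have hu : ∀ᶠ S : ℕ in atTop, ρ ^ (2 * S) ≤ (tot f (k ^ S) : ℝ) := by
    have h1 : Tendsto (fun S : ℕ => k ^ S) atTop atTop :=
      tendsto_pow_atTop_atTop_of_one_lt (by omega)
    filter_upwards [h1.eventually hgrow] with S hS
    refine le_trans (le_of_eq ?_) hS
    rw [hρdef]
    push_cast
    rw [← Real.rpow_natCast, ← Real.rpow_mul (by positivity), ← Real.rpow_natCast,
      ← Real.rpow_mul (by positivity)]
    congr 1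
    push_cast
    ring
  have hfr := freq_growth (u := fun S => (tot f (k ^ S) : ℝ)) hρ hm1 hGle
    (fun _ => Nat.cast_nonneg _) hu
  -- for each such scale
  have hfr2 : ∃ᶠ s : ℕ in atTop, ∃ a ∈ Ico 1 (k ^ m),
      R < ((Ico 1 (k ^ m)).filter (fun a' => cls T k a' = cls T k a)).card ∧
      tot f (k ^ (m + s)) ≤ 2 * k ^ m * (blk f k a s).length := by
    have h1 : Tendsto (fun s : ℕ => m + s) atTop atTop := tendsto_atTop_mono (f := fun s => s)
      (fun s => by omega) tendsto_id
    refine (hfr.and_eventually ((eventually_ge_atTop 1).and (h1.eventually hu))).mono ?_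
    rintro s ⟨h2, h3, h4⟩
    have h5 : (0 : ℝ) < (tot f (k ^ (m + s)) : ℝ) := lt_of_lt_of_le (by positivity) h4
    refine one_scale hk hT (K := K) h3 hc0 ?_ ?_ ?_ (by exact_mod_cast h5)
    · exact Nat.mul_pos (Nat.succ_pos _) (Nat.succ_pos _)
    · intro a ha q'
      refine (wd_len hW hk ha q').trans ?_
      rw [hK, ← mul_assoc]
      exact Nat.mul_le_mul_right _ (Nat.le_succ _)
    · exact_mod_cast h2
  -- pigeonhole
  by_contra hcon
  push Not at hcon
  have h1 : ∀ a ∈ Ico 1 (k ^ m), ∀ᶠ s : ℕ in atTop,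
      ¬ (R < ((Ico 1 (k ^ m)).filter (fun a' => cls T k a' = cls T k a)).card ∧
      tot f (k ^ (m + s)) ≤ 2 * k ^ m * (blk f k a s).length) := by
    intro a ha
    by_cases hR : R < ((Ico 1 (k ^ m)).filter (fun a' => cls T k a' = cls T k a)).card
    · have h2 := hcon m a ha (by convert hR)
      filter_upwards [h2] with s hs
      rintro ⟨-, h4⟩
      exact absurd h4 (not_le.2 hs)
    · exact Eventually.of_forall fun s h => hR h.1
  have h2 := (eventually_all_finset _).2 h1
  obtain ⟨s, ⟨a, ha, h3⟩, h4⟩ := (hfr2.and_eventually h2).exists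
  exact h4 a ha h3

end Pool.Agent.HS38.TT
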