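import Mathlib

/-!
# Two-way transducers which read the digits of an integer
-/

set_option autoImplicit false

namespace Pool.Agent.HS38.TT

/-- A deterministic two-way transducer with the set `Q` of states. In the state `q`, with its head on a
cell with the content `s`, it halts if `step q s = none`. If `step q s = some (q', m, w)` then it goes to
the state `q'`, moves its head by `m` and writes the word `w`. -/
structure Transducer (Q : Type) where
  start : Q
  step : Q → Option ℕ → Option (Q × SignType × List ℤ)

/-- The input tape for the integer `n`: the cell `j ≥ 0` holds the digit of `n` in base `k` with the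
number `j` (`0` for the least significant digit); there is no digit in the other cells. -/
def cell (k n : ℕ) (j : ℤ) : Option ℕ := if 0 ≤ j then (Nat.digits k n)[j.toNat]? else none

variable {Q : Type}

/-- one step, from a configuration (state, position of the head, word written so far) -/
def Transducer.next (T : Transducer Q) (c : ℤ → Option ℕ) (s : Q × ℤ × List ℤ) : Q × ℤ × List ℤ :=
  match T.step s.1 (c s.2.1) with
  | none => s
  | some r => (r.1, s.2.1 + ((r.2.1 : SignType) : ℤ), s.2.2 ++ r.2.2)

/-- the configuration after `t` steps, with the input tape `c` -/
def Transducer.conf (T : Transducer Q) (c : ℤ → Option ℕ) (t : ℕ) : Q × ℤ × List ℤ :=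
  (T.next c)^[t] (T.start, 0, [])

/-- For every input `n` the transducer halts and has written the word `f n`; its head does not leave
the cells of the digits of `n` in base `k` and the two cells next to them. -/
def Transducer.Computes (T : Transducer Q) (k : ℕ) (f : ℕ → List ℤ) : Prop :=
  ∀ n, (∀ t, -1 ≤ (T.conf (cell k n) t).2.1 ∧
      (T.conf (cell k n) t).2.1 ≤ (Nat.digits k n).length) ∧
    ∃ t, T.step (T.conf (cell k n) t).1 (cell k n (T.conf (cell k n) t).2.1) = none ∧
      (T.conf (cell k n) t).2.2 = f n

end Pool.Agent.HS38.TT
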