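import Pool.Agent.HS38.TT.Pat

/-!
# Many leading parts with the same behaviour and with long blocks
-/

set_option autoImplicit false

open Finset Filter Topology

namespace Pool.Agent.HS38.TT

variable {Q : Type}

/-- the total length of the first `N` values -/
def tot (f : ℕ → List ℤ) (N : ℕ) : ℕ := ((List.range N).flatMap f).length

lemma tot_mono (f : ℕ → List ℤ) : Monotone (tot f) := by
  apply monotone_nat_of_le_succ
  intro N
  unfold tot
  rw [List.range_succ, List.flatMap_append, List.length_append]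
  omega

lemma blk_append (f : ℕ → List ℤ) (k a s : ℕ) :
    (List.range (a * k ^ s)).flatMap f ++ blk f k a s = (List.range ((a + 1) * k ^ s)).flatMap f := by
  rw [show (a + 1) * k ^ s = a * k ^ s + k ^ s by ring, List.range_add, List.flatMap_append,
    List.flatMap_map]
  rfl

lemma tot_blk (f : ℕ → List ℤ) (k a s : ℕ) :
    tot f ((a + 1) * k ^ s) = tot f (a * k ^ s) + (blk f k a s).length := by
  unfold tot
  rw [← blk_append, List.length_append]

lemma tot_sum (f : ℕ → List ℤ) (k s M : ℕ) :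
    tot f (M * k ^ s) = ∑ a ∈ range M, (blk f k a s).length := by
  induction M with
  | zero => simp [tot]
  | succ M ih => rw [sum_range_succ, tot_blk, ih]

lemma ev_cmp {K : ℕ} (hK : 1 ≤ K) {o o' : Q → List ℤ} (h : ∀ q, (o q).length ≤ K * (o' q).length)
    (π : List (List ℤ ⊕ Q)) : (ev o π).length ≤ K * (ev o' π).length := by
  induction π with
  | nil => simp [ev_nil]
  | cons x π ih =>
    cases x with
    | inl w =>
      rw [ev_inl, ev_inl, List.length_append, List.length_append]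
      nlinarith
    | inr q =>
      rw [ev_inr, ev_inr, List.length_append, List.length_append]
      have := h q
      nlinarith

lemma ev_len {o o' : Q → List ℤ} (h : ∀ q, (o q).length = (o' q).length)
    (π : List (List ℤ ⊕ Q)) : (ev o π).length = (ev o' π).length := by
  induction π with
  | nil => rfl
  | cons x π ih =>
    cases x with
    | inl w => rw [ev_inl, ev_inl, List.length_append, List.length_append, ih]
    | inr q => rw [ev_inr, ev_inr, List.length_append, List.length_append, ih, h q]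

/-- a bound for a step -/
lemma exists_W [Fintype Q] (T : Transducer Q) (k : ℕ) (hk : 2 ≤ k) (g : List ℤ → ℕ) :
    ∃ W : ℕ, ∀ n q p q' m w, T.step q (cell k n p) = some (q', m, w) → g w ≤ W := by
  classical
  set h : Q → Option ℕ → ℕ := fun q x => match T.step q x with
    | none => 0
    | some r => g r.2.2 with hh
  refine ⟨∑ q, (h q none + ∑ d ∈ range k, h q (some d)), fun n q p q' m w hst => ?_⟩
  have h1 : h q (cell k n p) = g w := by
    rw [hh]
    simp only [hst]
  rw [← h1]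
  refine le_trans ?_ (single_le_sum (f := fun q => h q none + ∑ d ∈ range k, h q (some d))
    (fun _ _ => Nat.zero_le _) (mem_univ q))
  rcases cell_mem hk n p with h2 | ⟨d, hd, h2⟩
  · rw [h2]
    show h q none ≤ h q none + _
    omega
  · rw [h2]
    have h3 := single_le_sum (f := fun d => h q (some d)) (fun _ _ => Nat.zero_le _) (mem_range.2 hd)
    show h q (some d) ≤ h q none + ∑ d ∈ range k, h q (some d)
    exact le_trans h3 (Nat.le_add_left _ _)

lemma wd_len [Fintype Q] {T : Transducer Q} {k W : ℕ}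
    (hW : ∀ n q p q' m w, T.step q (cell k n p) = some (q', m, w) → w.length ≤ W) {m a : ℕ}
    (hk : 2 ≤ k) (ha : a < k ^ m) (q : Q) : (wd T k a q).length ≤ W * (Fintype.card Q * (m + 1)) := by
  classical
  by_cases h : ∃ r w, Ex T k a q r w
  · obtain ⟨r, w, h1⟩ := h
    rw [(ex_iff.1 h1).2]
    obtain ⟨t, ht⟩ := h1
    have h2 := exc_len (hW a) ht
    have h3 := exc_time ht
    have h4 : (Nat.digits k a).length ≤ m := (Nat.digits_length_le_iff (by omega) a).2 ha
    refine h2.trans (Nat.mul_le_mul_left _ (h3.trans (Nat.mul_le_mul_left _ ?_)))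
    omega
  · unfold wd
    rw [dif_neg h]
    simp

/-- representatives -/
lemma exists_rep [Finite Q] (T : Transducer Q) (k : ℕ) (hk : 2 ≤ k) : ∃ c0 : ℕ, ∀ a, 1 ≤ a →
    ∃ a', 1 ≤ a' ∧ a' < k ^ c0 ∧ beh T k a' = beh T k a ∧ ∀ q, wd T k a' q = [] → wd T k a q = [] := by
  classical
  let key : ℕ → (Q → Option (Option Q)) × Set Q := fun a => (beh T k a, {q | wd T k a q = []})
  have h1 : ∀ v, ∃ a' : ℕ, (∃ a, 1 ≤ a ∧ key a = v) → 1 ≤ a' ∧ key a' = v := by
    intro v
    by_cases h : ∃ a, 1 ≤ a ∧ key a = v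
    · obtain ⟨a, h2, h3⟩ := h
      exact ⟨a, fun _ => ⟨h2, h3⟩⟩
    · exact ⟨0, fun h' => absurd h' h⟩
  choose r hr using h1
  have hfin : Finite ((Q → Option (Option Q)) × Set Q) := inferInstance
  obtain ⟨M, hM⟩ := (Set.finite_range r).bddAbove
  refine ⟨M, fun a ha => ⟨r (key a), ?_⟩⟩
  obtain ⟨h2, h3⟩ := hr (key a) ⟨a, ha, rfl⟩
  refine ⟨h2, ?_, congrArg Prod.fst h3, ?_⟩
  · have h4 : r (key a) ≤ M := hM ⟨_, rfl⟩
    exact lt_of_le_of_lt h4 (Nat.lt_pow_self (by omega))
  · intro q hq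
    have h4 : {q | wd T k (r (key a)) q = []} = {q | wd T k a q = []} := congrArg Prod.snd h3
    have h5 : q ∈ {q | wd T k (r (key a)) q = []} := hq
    rw [h4] at h5
    exact h5

/-- polynomials grow slower than exponential functions -/
lemma poly_exp (C e c0 : ℕ) {ρ : ℝ} (hρ : 1 < ρ) : ∃ m : ℕ, c0 < m ∧
    (C : ℝ) * ((m : ℝ) + 1) ^ e ≤ ρ ^ (m - c0) := by
  have h1 := tendsto_pow_const_div_const_pow_of_one_lt e hρ
  have h2 : ∀ᶠ n : ℕ in atTop, ((n : ℝ) ^ e / ρ ^ n) < 1 / ((C + 1) * ρ ^ (c0 + 1)) :=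
    h1.eventually_lt_const (by positivity)
  obtain ⟨n, hn1, hn2⟩ := (h2.and (eventually_gt_atTop (c0 + 1))).exists
  refine ⟨n - 1, by omega, ?_⟩
  have h3 : (((n - 1 : ℕ) : ℝ) + 1) = n := by
    have : 1 ≤ n := by omega
    push_cast [this]
    ring
  rw [h3]
  rw [div_lt_div_iff₀ (by positivity) (by positivity), one_mul] at hn1
  have h4 : ρ ^ n = ρ ^ (n - 1 - c0) * ρ ^ (c0 + 1) := by
    rw [← pow_add]
    congr 1
    omega
  rw [h4] at hn1
  have h5 : (0 : ℝ) < ρ ^ (c0 + 1) := by positivity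
  have h6 : (C : ℝ) * (n : ℝ) ^ e ≤ (n : ℝ) ^ e * (C + 1) := by
    have : (0 : ℝ) ≤ (n : ℝ) ^ e := by positivity
    nlinarith
  have h7 : (n : ℝ) ^ e * (C + 1) < ρ ^ (n - 1 - c0) := by
    by_contra hcon
    push Not at hcon
    have := mul_le_mul_of_nonneg_right hcon h5.le
    nlinarith
  linarith

/-- fast growth infinitely often -/
lemma freq_growth {u : ℕ → ℝ} {ρ G : ℝ} (hρ : 1 < ρ) {c0 m : ℕ} (hm : c0 < m)
    (hG : G ≤ ρ ^ (m - c0)) (hu0 : ∀ S, 0 ≤ u S) (hu : ∀ᶠ S : ℕ in atTop, ρ ^ (2 * S) ≤ u S) :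
    ∃ᶠ s : ℕ in atTop, G * u (c0 + s) ≤ u (m + s) := by
  by_contra hcon
  rw [not_frequently, eventually_atTop] at hcon
  obtain ⟨s0, hs0⟩ := hcon
  set h := m - c0 with hh
  have h1 : ∀ j : ℕ, u (c0 + s0 + j * h) ≤ ρ ^ (j * h) * u (c0 + s0) := by
    intro j
    induction j with
    | zero => simp
    | succ j ih =>
      have h2 := hs0 (s0 + j * h) (by omega)
      push Not at h2
      rw [show m + (s0 + j * h) = c0 + s0 + (j + 1) * h by
        rw [Nat.add_mul, one_mul]; omega,
        show c0 + (s0 + j * h) = c0 + s0 + j * h by ring] at h2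
      calc u (c0 + s0 + (j + 1) * h) ≤ G * u (c0 + s0 + j * h) := h2.le
        _ ≤ ρ ^ h * (ρ ^ (j * h) * u (c0 + s0)) :=
            mul_le_mul hG ih (hu0 _) (by positivity)
        _ = ρ ^ ((j + 1) * h) * u (c0 + s0) := by
            rw [Nat.add_mul, one_mul, pow_add]
            ring
  have h2 : Tendsto (fun j : ℕ => c0 + s0 + j * h) atTop atTop := by
    apply tendsto_atTop_mono (f := fun j => j) _ tendsto_id
    intro j
    have : j * 1 ≤ j * h := Nat.mul_le_mul_left _ (by omega)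
    omega
  have h3 := h2.eventually hu
  have h4 : Tendsto (fun j : ℕ => ρ ^ j) atTop atTop := tendsto_pow_atTop_atTop_of_one_lt hρ
  obtain ⟨j, hj1, hj2⟩ := (h3.and (h4.eventually_gt_atTop (u (c0 + s0)))).exists
  have h5 := (hj1.trans (h1 j))
  have h6 : ρ ^ (j * h) * ρ ^ (j * h) ≤ ρ ^ (2 * (c0 + s0 + j * h)) := by
    rw [← pow_add]
    apply pow_le_pow_right₀ hρ.le
    omega
  have h7 : (0 : ℝ) < ρ ^ (j * h) := by positivity
  have h8 := le_of_mul_le_mul_left (h6.trans h5) h7
  have h9 : ρ ^ j ≤ ρ ^ (j * h) := by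
    apply pow_le_pow_right₀ hρ.le
    have : j * 1 ≤ j * h := Nat.mul_le_mul_left _ (by omega)
    omega
  linarith

end Pool.Agent.HS38.TT
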