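import Pool.Agent.HS38.TT.Big
import Pool.Agent.Y413.DG.Cor

/-!
# Linear relations between blocks, and the digits of an algebraic number
-/

set_option autoImplicit false

open Finset Filter Topology

namespace Pool.Agent.HS38.TT

variable {Q : Type}

/-- the value of a word of digits -/
def val (b : ℕ) : List ℤ → ℤ
  | [] => 0
  | x :: l => x * (b : ℤ) ^ l.length + val b l

lemma val_append (b : ℕ) (l l' : List ℤ) : val b (l ++ l') = val b l * (b : ℤ) ^ l'.length + val b l' := by
  induction l with
  | nil => simp [val]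
  | cons x l ih =>
    rw [List.cons_append]
    show x * (b : ℤ) ^ (l ++ l').length + val b (l ++ l') =
      (x * (b : ℤ) ^ l.length + val b l) * (b : ℤ) ^ l'.length + val b l'
    rw [ih, List.length_append, pow_add]
    ring

lemma lin (b : ℕ) {n : ℕ} (c : Fin (n + 1) → ℤ) (o : Fin (n + 1) → Q → List ℤ)
    (hl : ∀ i j q, (o i q).length = (o j q).length) (h1 : ∑ i, c i = 0)
    (h2 : ∀ q, ∑ i, c i * val b (o i q) = 0) (π : List (List ℤ ⊕ Q)) :
    ∑ i, c i * val b (ev (o i) π) = 0 := by
  have key : ∀ (w : Fin (n + 1) → List ℤ) (π : List (List ℤ ⊕ Q)),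
      ∑ i, c i * val b (ev (o i) π) = 0 → ∑ i, c i * val b (w i) = 0 →
      ∑ i, c i * val b (w i ++ ev (o i) π) = 0 := by
    intro w π h3 h4
    have h5 : ∀ i, c i * val b (w i ++ ev (o i) π) =
        c i * val b (w i) * (b : ℤ) ^ (ev (o 0) π).length + c i * val b (ev (o i) π) := by
      intro i
      rw [val_append, ev_len (fun q => hl i 0 q) π]
      ring
    rw [sum_congr rfl fun i _ => h5 i, sum_add_distrib, ← sum_mul, h3, h4]
    ring
  induction π with
  | nil => simp [ev_nil, val]
  | cons x π ih =>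
    cases x with
    | inl w =>
      simp only [ev_inl]
      refine key (fun _ => w) π ih ?_
      rw [← sum_mul, h1, zero_mul]
    | inr q =>
      simp only [ev_inr]
      exact key (fun i => o i q) π ih (h2 q)

open Pool.Agent.Y413.DG

/-- removing a word from the beginning of an expansion -/
lemma exp_word {b : ℕ} (hb : 2 ≤ b) (w : List ℤ) : ∀ (y : ℝ) (e : ℕ → ℤ), Exp b y e →
    (∀ t (ht : t < w.length), e t = w[t]) →
    ∃ y', y * (b : ℝ) ^ w.length = val b w + y' ∧ Exp b y' (fun t => e (w.length + t)) := by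
  induction w with
  | nil =>
    intro y e he _
    refine ⟨y, by simp [val], ?_⟩
    simpa using he
  | cons x w ih =>
    intro y e he hw
    have h0 : e 0 = x := hw 0 (by simp)
    obtain ⟨y', h1, h2⟩ := ih (b * y - e 0) (fun t => e (t + 1)) (he.shift hb) (by
      intro t ht
      have := hw (t + 1) (by simp; omega)
      simpa using this)
    refine ⟨y', ?_, ?_⟩
    · show y * (b : ℝ) ^ (w.length + 1) = ((x * (b : ℤ) ^ w.length + val b w : ℤ) : ℝ) + y'
      push_cast
      rw [h0] at h1
      rw [pow_succ]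
      linear_combination h1
    · convert h2 using 2
      rw [List.length_cons]
      congr 1
      omega

/-- the letters are bounded -/
lemma run_bd {T : Transducer Q} {c : ℤ → Option ℕ} {hi : ℤ} {B : ℕ}
    (hB : ∀ q p q' m w, T.step q (c p) = some (q', m, w) → ∀ x ∈ w, |x| ≤ B) {t : ℕ} {q : Q} {p : ℤ}
    {w : List ℤ} (h : Run T c hi t q p w) : ∀ x ∈ w, |x| ≤ B := by
  induction h with
  | halt _ _ => simp
  | step hp h h1 ih =>
    intro x hx
    rcases List.mem_append.1 hx with h2 | h2
    · exact hB _ _ _ _ _ h x h2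
    · exact ih x h2

lemma exists_B [Finite Q] {T : Transducer Q} {k : ℕ} (hk : 2 ≤ k) {f : ℕ → List ℤ}
    (hT : T.Computes k f) : ∃ B : ℕ, ∀ n, ∀ x ∈ f n, |x| ≤ B := by
  have := Fintype.ofFinite Q
  obtain ⟨B, hB⟩ := exists_W T k hk (fun w => (w.map Int.natAbs).sum)
  refine ⟨B, fun n => ?_⟩
  obtain ⟨t, ht⟩ := comp_run hT n
  apply run_bd _ ht
  intro q p q' m w h x hx
  have h1 := hB n q p q' m w h
  have h2 : x.natAbs ≤ (w.map Int.natAbs).sum := List.le_sum_of_mem (List.mem_map_of_mem hx)
  have h3 : x.natAbs ≤ B := h2.trans h1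
  rw [Int.abs_eq_natAbs]
  exact_mod_cast h3

end Pool.Agent.HS38.TT
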