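import Pool.Agent.HS38.TT.Lin

/-!
# Numbers written by two-way transducers are rational or transcendental
-/

set_option autoImplicit false

open Finset Filter Topology

namespace Pool.Agent.HS38.TT

open Pool.Agent.Y413.DG

variable {Q : Type}

lemma tot_tendsto {f : ℕ → List ℤ} {δ : ℝ} (hδ : 0 < δ)
    (hgrow : ∀ᶠ N : ℕ in atTop, (N : ℝ) ^ δ ≤ tot f N) :
    Tendsto (fun N => (tot f N : ℝ)) atTop atTop :=
  tendsto_atTop_mono' _ hgrow ((tendsto_rpow_atTop hδ).comp tendsto_natCast_atTop_atTop)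

/-- a word which occurs in the concatenation -/
lemma word_at {f : ℕ → List ℤ} {d : ℕ → ℤ}
    (hd : ∀ N, (List.range N).flatMap f = (List.range (tot f N)).map d) {k a s : ℕ} (t : ℕ)
    (ht : t < (blk f k a s).length) : d (tot f (a * k ^ s) + t) = (blk f k a s)[t] := by
  have h1 := hd ((a + 1) * k ^ s)
  have h2 := tot_blk f k a s
  have h3 : ((List.range ((a + 1) * k ^ s)).flatMap f)[tot f (a * k ^ s) + t]? =
      some (blk f k a s)[t] := by
    rw [← blk_append, List.getElem?_append_right (by unfold tot; omega)]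
    have : tot f (a * k ^ s) + t - ((List.range (a * k ^ s)).flatMap f).length = t := by
      unfold tot
      omega
    rw [this]
    exact List.getElem?_eq_getElem ht
  rw [h1] at h3
  rw [List.getElem?_map, List.getElem?_range (by omega)] at h3
  simpa using h3

/-- the nonzero vector of coefficients -/
lemma exists_coef [Fintype Q] (b : ℕ) (o : Fin (Fintype.card Q + 2) → Q → List ℤ) :
    ∃ c : Fin (Fintype.card Q + 2) → ℤ, c ≠ 0 ∧ ∑ i, c i = 0 ∧
      ∀ q, ∑ i, c i * val b (o i q) = 0 := by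
  classical
  let A : Matrix (Option Q) (Fin (Fintype.card Q + 2)) ℤ := fun z i =>
    match z with
    | none => 1
    | some q => val b (o i q)
  obtain ⟨c, hc0, hc, -⟩ := Int.Matrix.exists_ne_zero_int_vec_norm_le A
    (by rw [Fintype.card_option, Fintype.card_fin]; omega) (by rw [Fintype.card_option]; omega)
  refine ⟨c, hc0, ?_, fun q => ?_⟩
  · have h1 := congrFun hc none
    rw [Matrix.mulVec, dotProduct] at h1
    simpa [A] using h1
  · have h1 := congrFun hc (some q)
    rw [Matrix.mulVec, dotProduct] at h1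
    have h2 : ∑ i, c i * val b (o i q) = ∑ i, A (some q) i * c i :=
      sum_congr rfl fun i _ => mul_comm _ _
    rw [h2]
    exact h1

/-- **Main theorem.** -/
theorem main [Finite Q] {b k : ℕ} (hb : 2 ≤ b) (hk : 2 ≤ k) (T : Transducer Q) {f : ℕ → List ℤ}
    (hT : T.Computes k f) {δ : ℝ} (hδ : 0 < δ)
    (hgrow : ∀ᶠ N : ℕ in atTop, (N : ℝ) ^ δ ≤ tot f N) {d : ℕ → ℤ}
    (hd : ∀ N, (List.range N).flatMap f = (List.range (tot f N)).map d) {x : ℝ}
    (hx : HasSum (fun t => (d t : ℝ) / (b : ℝ) ^ (t + 1)) x) (hirr : Irrational x) :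
    Transcendental ℚ x := by
  classical
  intro halg
  have := Fintype.ofFinite Q
  have hb0 : (0 : ℝ) < b := by exact_mod_cast (by omega : 0 < b)
  have hb1 : (1 : ℝ) < b := by exact_mod_cast (by omega : 1 < b)
  -- the letters are bounded
  obtain ⟨B, hB⟩ := exists_B hk hT
  have htt := tot_tendsto hδ hgrow
  have hdB : ∀ t, |d t| ≤ B := by
    intro t
    obtain ⟨N, hN⟩ := (htt.eventually_gt_atTop (t : ℝ)).exists
    have hN' : t < tot f N := by exact_mod_cast hN
    have h1 : d t ∈ (List.range N).flatMap f := by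
      rw [hd N]
      exact List.mem_map_of_mem (List.mem_range.2 hN')
    obtain ⟨n, -, hn⟩ := List.mem_flatMap.1 h1
    exact hB n _ hn
  -- the class
  obtain ⟨m, a0, ha0, hR, hfr⟩ := growth hk hT hδ hgrow (Fintype.card Q + 1)
  set C := (Ico 1 (k ^ m)).filter (fun a' => cls T k a' = cls T k a0) with hC
  have hR' : Fintype.card Q + 2 ≤ C.card := by
    have h1 : Fintype.card Q + 1 < C.card := by
      rw [hC]
      convert hR
    omega
  obtain ⟨C', hC', hcard⟩ := exists_subset_card_eq hR'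
  set a : Fin (Fintype.card Q + 2) → ℕ := fun i => C'.orderEmbOfFin hcard i with ha
  have hamem : ∀ i, 1 ≤ a i ∧ a i < k ^ m ∧ cls T k (a i) = cls T k a0 := by
    intro i
    have h1 := hC' (orderEmbOfFin_mem C' hcard i)
    rw [hC, mem_filter, Finset.mem_Ico] at h1
    exact ⟨h1.1.1, h1.1.2, h1.2⟩
  have hamono : StrictMono a := (C'.orderEmbOfFin hcard).strictMono
  rw [Finset.mem_Ico] at ha0
  obtain ⟨c, hc0, hc1, hc2⟩ := exists_coef b (fun i => wd T k (a i))
  -- constants
  set S : ℤ := ∑ i, |c i| with hS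
  obtain ⟨Bc, hBc⟩ : ∃ Bc : ℕ, ∀ i, |c i| ≤ Bc := by
    refine ⟨(∑ i, |c i|).toNat, fun i => ?_⟩
    have h1 : |c i| ≤ ∑ i, |c i| := single_le_sum (f := fun i => |c i|) (fun _ _ => abs_nonneg _)
      (mem_univ i)
    exact h1.trans (Int.self_le_toNat _)
  set ε : ℝ := 1 / (4 * (k : ℝ) ^ m) with hε
  have hkm : (0 : ℝ) < (k : ℝ) ^ m := by
    have : (0 : ℝ) < k := by exact_mod_cast (by omega : 0 < k)
    positivity
  have hε0 : 0 < ε := by positivity
  obtain ⟨N0, hN0⟩ := ok b hb (fun _ : Fin 1 => x) (fun _ => halg) (indep_one hirr)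
    (Fintype.card Q + 2) Bc 0 ε hε0
  obtain ⟨K, c', hc', hdom⟩ := dom b hb (fun i => (c i : ℝ))
  -- a good scale
  have htt2 : Tendsto (fun s : ℕ => (tot f (k ^ (m + s)) : ℝ)) atTop atTop := by
    refine htt.comp ((tendsto_pow_atTop_atTop_of_one_lt (by omega : 1 < k)).comp ?_)
    exact tendsto_atTop_mono (f := fun s => s) (fun s => by omega) tendsto_id
  have hexp : Tendsto (fun s : ℕ => (b : ℝ) ^ (ε * (tot f (k ^ (m + s)) : ℝ))) atTop atTop := by
    have h1 : Tendsto (fun y : ℝ => (b : ℝ) ^ (ε * y)) atTop atTop := by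
      have h2 : ∀ y : ℝ, (b : ℝ) ^ (ε * y) = Real.exp (Real.log b * ε * y) := by
        intro y
        rw [Real.rpow_def_of_pos hb0]
        ring_nf
      simp only [h2]
      exact Real.tendsto_exp_atTop.comp
        (tendsto_id.const_mul_atTop (mul_pos (Real.log_pos hb1) hε0))
    exact h1.comp htt2
  obtain ⟨s, hs1, hs2, hs3, hs4, hs5⟩ := (hfr.and_eventually
    ((eventually_ge_atTop 1).and ((htt2.eventually_ge_atTop (N0 : ℝ)).and
      ((htt2.eventually_gt_atTop (2 * (k : ℝ) ^ m * (K + 1))).and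
        (hexp.eventually_gt_atTop ((S : ℝ) * B)))))).exists
  set N := tot f (k ^ (m + s)) with hN
  set L := (blk f k a0 s).length with hL
  set n : Fin (Fintype.card Q + 2) → ℕ := fun i => tot f (a i * k ^ s) with hn
  have hLi : ∀ i, (blk f k (a i) s).length = L := fun i =>
    len_cls hk hT hs2 (hamem i).1 ha0.1 (hamem i).2.2.symm
  have hnN : ∀ i, n i ≤ N := by
    intro i
    apply tot_mono f
    rw [pow_add]
    exact Nat.mul_le_mul_right _ (hamem i).2.1.le
  have hgap : ∀ i j, i < j → n i + L ≤ n j := by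
    intro i j hij
    rw [← hLi i, hn]
    show tot f (a i * k ^ s) + _ ≤ tot f (a j * k ^ s)
    rw [← tot_blk]
    exact tot_mono f (Nat.mul_le_mul_right _ (hamono hij))
  have hLN : (N : ℝ) ≤ 2 * (k : ℝ) ^ m * L := by exact_mod_cast hs1
  have hLK : K < L := by
    have h1 : 2 * (k : ℝ) ^ m * (K + 1) < 2 * (k : ℝ) ^ m * L := lt_of_lt_of_le hs4 hLN
    have h2 := lt_of_mul_lt_mul_left h1 (by positivity)
    have h3 : (K : ℝ) < L := by linarith
    exact_mod_cast h3
  -- the expansions
  have hx' : Exp b x d := hx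
  have htail := fun i => hx'.tail hb (n i)
  choose I y hy1 hy2 using htail
  have hw : ∀ i, ∃ y', y i * (b : ℝ) ^ L = val b (blk f k (a i) s) + y' ∧ |y'| ≤ B := by
    intro i
    obtain ⟨y', h1, h2⟩ := exp_word hb (blk f k (a i) s) (y i) _ (hy2 i) (fun t ht =>
      word_at hd t ht)
    rw [hLi i] at h1
    exact ⟨y', h1, h2.bound hb fun t => hdB _⟩
  choose y' hy3 hy4 using hw
  -- the relation
  have hval : ∑ i, c i * val b (blk f k (a i) s) = 0 := by
    obtain ⟨π, hπ⟩ := pat2 hk hT hs2 ha0.1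
    have h1 : ∀ i, blk f k (a i) s = ev (wd T k (a i)) π := fun i =>
      hπ (a i) (hamem i).1 (congrArg Prod.fst (hamem i).2.2)
    simp only [h1]
    apply lin b c (fun i => wd T k (a i)) _ hc1 hc2
    intro i j q
    have h2 := congrFun (congrArg Prod.snd (hamem i).2.2) q
    have h3 := congrFun (congrArg Prod.snd (hamem j).2.2) q
    exact h2.trans h3.symm
  have hsum : (∑ i, (c i : ℝ) * y i) * (b : ℝ) ^ L = ∑ i, (c i : ℝ) * y' i := by
    rw [sum_mul]
    have h1 : ∀ i, (c i : ℝ) * y i * (b : ℝ) ^ L =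
        (c i : ℝ) * (val b (blk f k (a i) s) : ℝ) + (c i : ℝ) * y' i := by
      intro i
      rw [mul_assoc, hy3 i]
      ring
    rw [sum_congr rfl fun i _ => h1 i, sum_add_distrib]
    have h2 : ∑ i, (c i : ℝ) * (val b (blk f k (a i) s) : ℝ) = 0 := by exact_mod_cast hval
    rw [h2, zero_add]
  have hsmall : |∑ i, (c i : ℝ) * y i| * (b : ℝ) ^ L ≤ S * B := by
    have hbL : (0 : ℝ) < (b : ℝ) ^ L := by positivity
    rw [← abs_of_pos hbL, ← abs_mul, hsum]
    calc |∑ i, (c i : ℝ) * y' i| ≤ ∑ i, |(c i : ℝ) * y' i| := abs_sum_le_sum_abs _ _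
      _ ≤ ∑ i, |(c i : ℝ)| * B := by
          apply sum_le_sum
          intro i _
          rw [abs_mul]
          exact mul_le_mul_of_nonneg_left (hy4 i) (abs_nonneg _)
      _ = S * B := by
          rw [← sum_mul, hS]
          push_cast
          rfl
  -- the subspace theorem
  have hok := hN0 N (by exact_mod_cast hs3) (fun i => (n i : ℤ)) (fun i _ => c i) (fun _ => 0)
    (∑ i, c i * I i)
    (by
      intro i
      rw [abs_of_nonneg (Int.natCast_nonneg _)]
      exact_mod_cast hnN i)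
    (fun i _ => hBc i) (by intro i; simp) (by intro i _; simp)
    (by
      refine ⟨0, ?_⟩
      obtain ⟨i, hi⟩ := Function.ne_iff.1 hc0
      have h1 := hdom (fun i => (n i : ℤ)) (by
        intro i j hij
        rcases lt_or_gt_of_ne hij with h | h
        · have := hgap i j h
          rw [abs_sub_comm, lt_abs]
          left
          omega
        · have := hgap j i h
          rw [lt_abs]
          left
          omega) i (by exact_mod_cast hi)
      intro h0
      rw [h0, abs_zero] at h1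
      have h2 : 0 < c' * (b : ℝ) ^ ((n i : ℕ) : ℤ) := by positivity
      linarith)
  have hexpr : ∑ i, (∑ k : Fin 1, ((c i : ℤ) : ℝ) * (fun _ : Fin 1 => x) k + ((0 : ℤ) : ℝ)) *
      (b : ℝ) ^ ((n i : ℕ) : ℤ) - ((∑ i, c i * I i : ℤ) : ℝ) = ∑ i, (c i : ℝ) * y i := by
    have h1 : ∀ i, (∑ k : Fin 1, ((c i : ℤ) : ℝ) * (fun _ : Fin 1 => x) k + ((0 : ℤ) : ℝ)) *
        (b : ℝ) ^ ((n i : ℕ) : ℤ) = (c i : ℝ) * I i + (c i : ℝ) * y i := by
      intro i
      rw [Fin.sum_univ_one, Int.cast_zero, add_zero, zpow_natCast, mul_assoc, hy1 i]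
      ring
    rw [sum_congr rfl fun i _ => h1 i, sum_add_distrib]
    push_cast
    ring
  rw [hexpr] at hok
  -- the contradiction
  have h1 : (b : ℝ) ^ (-(ε * N)) * (b : ℝ) ^ L < S * B := by
    refine lt_of_lt_of_le ?_ hsmall
    exact mul_lt_mul_of_pos_right hok (by positivity)
  have h2 : (b : ℝ) ^ (ε * N) ≤ (b : ℝ) ^ (-(ε * N)) * (b : ℝ) ^ L := by
    rw [← Real.rpow_natCast, ← Real.rpow_add hb0]
    apply Real.rpow_le_rpow_of_exponent_le hb1.le
    have h3 : ε * N ≤ L / 2 := by
      rw [hε, div_mul_eq_mul_div, one_mul, div_le_div_iff₀ (by positivity) (by norm_num)]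
      linarith
    linarith
  linarith

end Pool.Agent.HS38.TT
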