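import Pool.Agent.HS38.TT.Run

/-!
# The common pattern of the outputs for numbers with the same leading part
-/

set_option autoImplicit false

namespace Pool.Agent.HS38.TT

variable {Q : Type}

/-! ### digits -/

lemma digits_split {k : ℕ} (hk : 2 ≤ k) {a s b : ℕ} (ha : 1 ≤ a) (hb : b < k ^ s) :
    Nat.digits k (a * k ^ s + b) =
      (Nat.digits k b ++ List.replicate (s - (Nat.digits k b).length) 0) ++ Nat.digits k a := by
  have h1 : (Nat.digits k b).length ≤ s := (Nat.digits_length_le_iff (by omega) b).2 hb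
  have h2 := Nat.digits_append_zeroes_append_digits (b := k) (k := s - (Nat.digits k b).length)
    (m := a) (n := b) (by omega) (by omega)
  rw [h2]
  congr 1
  rw [show (Nat.digits k b).length + (s - (Nat.digits k b).length) = s by omega]
  ring

lemma len_split {k : ℕ} (hk : 2 ≤ k) {a s b : ℕ} (ha : 1 ≤ a) (hb : b < k ^ s) :
    (Nat.digits k (a * k ^ s + b)).length = s + (Nat.digits k a).length := by
  have h1 : (Nat.digits k b).length ≤ s := (Nat.digits_length_le_iff (by omega) b).2 hb
  rw [digits_split hk ha hb, List.length_append, List.length_append, List.length_replicate]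
  omega

lemma cell_high {k : ℕ} (hk : 2 ≤ k) {a s b : ℕ} (ha : 1 ≤ a) (hb : b < k ^ s) (j : ℤ) (hj : 0 ≤ j) :
    cell k (a * k ^ s + b) (s + j) = cell k a j := by
  have h1 : (Nat.digits k b).length ≤ s := (Nat.digits_length_le_iff (by omega) b).2 hb
  unfold cell
  rw [if_pos (by omega), if_pos hj, digits_split hk ha hb, List.getElem?_append_right]
  · congr 1
    rw [List.length_append, List.length_replicate]
    omega
  · rw [List.length_append, List.length_replicate]
    omega

lemma cell_low {k : ℕ} (hk : 2 ≤ k) {a a' s b : ℕ} (ha : 1 ≤ a) (ha' : 1 ≤ a') (hb : b < k ^ s)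
    (j : ℤ) (hj : j < s) : cell k (a * k ^ s + b) j = cell k (a' * k ^ s + b) j := by
  have h1 : (Nat.digits k b).length ≤ s := (Nat.digits_length_le_iff (by omega) b).2 hb
  unfold cell
  split_ifs with h0
  · have h2 : ∀ a, 1 ≤ a → (Nat.digits k (a * k ^ s + b))[j.toNat]? =
        (Nat.digits k b ++ List.replicate (s - (Nat.digits k b).length) 0)[j.toNat]? := by
      intro a ha
      rw [digits_split hk ha hb]
      apply List.getElem?_append_left
      rw [List.length_append, List.length_replicate]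
      omega
    rw [h2 a ha, h2 a' ha']
  · rfl

lemma cell_mem {k : ℕ} (hk : 2 ≤ k) (n : ℕ) (j : ℤ) : cell k n j = none ∨ ∃ d < k, cell k n j = some d := by
  unfold cell
  split_ifs with h0
  · cases h : (Nat.digits k n)[j.toNat]? with
    | none => exact Or.inl rfl
    | some d =>
      right
      exact ⟨d, Nat.digits_lt_base (by omega) (List.mem_of_getElem? h), rfl⟩
  · exact Or.inl rfl

/-! ### behaviour of the leading part -/

/-- the excursion into the digits of `a`, starting in the state `q` -/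
def Ex (T : Transducer Q) (k a : ℕ) (q : Q) (r : Option Q) (w : List ℤ) : Prop :=
  ∃ t, Exc T (cell k a) 0 (Nat.digits k a).length t q 0 r w

open Classical in
/-- the behaviour of the leading part `a`: how the excursions end -/
noncomputable def beh (T : Transducer Q) (k a : ℕ) (q : Q) : Option (Option Q) :=
  if h : ∃ r w, Ex T k a q r w then some h.choose else none

open Classical in
/-- the words written in the excursions -/
noncomputable def wd (T : Transducer Q) (k a : ℕ) (q : Q) : List ℤ :=
  if h : ∃ r w, Ex T k a q r w then h.choose_spec.choose else []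

lemma ex_iff {T : Transducer Q} {k a : ℕ} {q : Q} {r : Option Q} {w : List ℤ} :
    Ex T k a q r w ↔ beh T k a q = some r ∧ wd T k a q = w := by
  classical
  unfold beh wd
  by_cases h : ∃ r w, Ex T k a q r w
  · rw [dif_pos h, dif_pos h]
    obtain ⟨t, ht⟩ := h.choose_spec.choose_spec
    constructor
    · rintro ⟨t', ht'⟩
      obtain ⟨-, h2, h3⟩ := exc_det ht ht'
      exact ⟨by rw [h2], h3⟩
    · rintro ⟨h1, h2⟩
      rw [Option.some.injEq] at h1
      rw [← h1, ← h2]
      exact ⟨t, ht⟩
  · rw [dif_neg h, dif_neg h]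
    constructor
    · exact fun h' => absurd ⟨r, w, h'⟩ h
    · rintro ⟨h1, -⟩
      exact absurd h1 (by simp)

/-- the word given by a pattern -/
def ev (o : Q → List ℤ) (π : List (List ℤ ⊕ Q)) : List ℤ := π.flatMap (Sum.elim id o)

lemma ev_nil (o : Q → List ℤ) : ev o [] = [] := rfl

lemma ev_inl (o : Q → List ℤ) (w : List ℤ) (π : List (List ℤ ⊕ Q)) :
    ev o (Sum.inl w :: π) = w ++ ev o π := rfl

lemma ev_inr (o : Q → List ℤ) (q : Q) (π : List (List ℤ ⊕ Q)) :
    ev o (Sum.inr q :: π) = o q ++ ev o π := rfl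

lemma ev_append (o : Q → List ℤ) (π π' : List (List ℤ ⊕ Q)) :
    ev o (π ++ π') = ev o π ++ ev o π' := List.flatMap_append

/-- **The common pattern.** -/
lemma pat {T : Transducer Q} {k : ℕ} (hk : 2 ≤ k) {a0 s b : ℕ} (ha0 : 1 ≤ a0) (hb : b < k ^ s)
    (t : ℕ) : ∀ (q : Q) (p : ℤ) (w : List ℤ), p < s →
      Run T (cell k (a0 * k ^ s + b)) (s + (Nat.digits k a0).length) t q p w →
      ∃ π : List (List ℤ ⊕ Q), ∀ a, 1 ≤ a → beh T k a = beh T k a0 →
        ∃ t', Run T (cell k (a * k ^ s + b)) (s + (Nat.digits k a).length) t' q p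
          (ev (wd T k a) π) := by
  induction t using Nat.strong_induction_on with
  | _ t ih =>
    intro q p w hp h
    cases h with
    | halt hp1 h =>
      refine ⟨[], fun a ha _ => ⟨0, Run.halt (by omega) ?_⟩⟩
      rw [cell_low hk ha ha0 hb p hp]
      exact h
    | @step t _ _ q' m w w' hp1 h h1 =>
      have hm := sign_le m
      by_cases hc : p + (m : ℤ) < s
      · obtain ⟨π, hπ⟩ := ih t (by omega) q' (p + m) w' hc h1
        refine ⟨Sum.inl w :: π, fun a ha hab => ?_⟩
        obtain ⟨t', ht'⟩ := hπ a ha hab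
        refine ⟨t' + 1, ?_⟩
        rw [ev_inl]
        refine Run.step (by omega) ?_ ht'
        rw [cell_low hk ha ha0 hb p hp]
        exact h
      · have e : p + (m : ℤ) = s := by omega
        rw [e] at h1
        -- transfer of excursions
        have key : ∀ a, 1 ≤ a → beh T k a = beh T k a0 → ∀ r w1,
            (∃ t1, Exc T (cell k (a0 * k ^ s + b)) s (s + (Nat.digits k a0).length) t1 q' s r w1) →
            ∃ t1, Exc T (cell k (a * k ^ s + b)) s (s + (Nat.digits k a).length) t1 q' s r
              (wd T k a q') := by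
          rintro a ha hab r w1 ⟨t1, h2⟩
          have h3 : Ex T k a0 q' r w1 := ⟨t1, exc_shift (lo' := 0) (fun j hj => by
            rw [zero_add]
            exact cell_high hk ha0 hb j hj) (by ring) h2 0 (by ring)⟩
          have h4 := (ex_iff.1 h3).1
          rw [← hab] at h4
          obtain ⟨t2, h5⟩ := ex_iff.2 ⟨h4, rfl⟩
          exact ⟨t2, exc_shift (lo' := (s : ℤ)) (fun j hj => by
            rw [zero_add]
            exact (cell_high hk ha hb j hj).symm) (by ring) h5 s (by ring)⟩
        rcases split (s : ℤ) h1 (by omega) with h2 | ⟨t1, t2, r, w1, w2, h2, h3, h4, h5⟩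
        · refine ⟨[Sum.inl w, Sum.inr q'], fun a ha hab => ?_⟩
          obtain ⟨t1, h3⟩ := key a ha hab none w' ⟨_, h2⟩
          have h4 := run_of_none h3 rfl
          refine ⟨t1 + 1, ?_⟩
          rw [ev_inl, ev_inr, ev_nil, List.append_nil]
          refine Run.step (by omega) ?_ (by rw [e]; exact h4)
          rw [cell_low hk ha ha0 hb p hp]
          exact h
        · obtain ⟨π, hπ⟩ := ih t2 (by omega) r (s - 1) w2 (by omega) h3
          refine ⟨Sum.inl w :: Sum.inr q' :: π, fun a ha hab => ?_⟩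
          obtain ⟨t3, h6⟩ := key a ha hab (some r) w1 ⟨_, h2⟩
          obtain ⟨t4, h7⟩ := hπ a ha hab
          obtain ⟨t5, h8⟩ := run_of_some h6 rfl (by omega) h7
          refine ⟨t5 + 1, ?_⟩
          rw [ev_inl, ev_inr]
          refine Run.step (by omega) ?_ (by rw [e]; exact h8)
          rw [cell_low hk ha ha0 hb p hp]
          exact h

lemma comp_run {T : Transducer Q} {k : ℕ} {f : ℕ → List ℤ} (hT : T.Computes k f) (n : ℕ) :
    ∃ t, Run T (cell k n) (Nat.digits k n).length t T.start 0 (f n) := by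
  obtain ⟨h1, t, h2, h3⟩ := hT n
  obtain ⟨t', w, h4, h5⟩ := run_of_conf (Nat.digits k n).length t (T.start, 0, [])
    (fun t' => (h1 t').2) h2
  unfold Transducer.conf at h3
  rw [h3, List.nil_append] at h5
  rw [h5]
  exact ⟨t', h4⟩

/-- the pattern of a number -/
lemma pat1 {T : Transducer Q} {k : ℕ} (hk : 2 ≤ k) {f : ℕ → List ℤ} (hT : T.Computes k f)
    {a0 s b : ℕ} (hs : 1 ≤ s) (ha0 : 1 ≤ a0) (hb : b < k ^ s) :
    ∃ π : List (List ℤ ⊕ Q), ∀ a, 1 ≤ a → beh T k a = beh T k a0 →
      f (a * k ^ s + b) = ev (wd T k a) π := by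
  obtain ⟨t, ht⟩ := comp_run hT (a0 * k ^ s + b)
  have hl : ∀ a, 1 ≤ a → (((Nat.digits k (a * k ^ s + b)).length : ℕ) : ℤ) =
      s + (Nat.digits k a).length := by
    intro a ha
    rw [len_split hk ha hb]
    push_cast
    rfl
  rw [hl a0 ha0] at ht
  obtain ⟨π, hπ⟩ := pat hk ha0 hb t T.start 0 _ (by omega) ht
  refine ⟨π, fun a ha hab => ?_⟩
  obtain ⟨t1, h1⟩ := hπ a ha hab
  obtain ⟨t2, h2⟩ := comp_run hT (a * k ^ s + b)
  rw [hl a ha] at h2
  exact run_det h2 h1

/-- the block of the values with the leading part `a` -/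
def blk (f : ℕ → List ℤ) (k a s : ℕ) : List ℤ := (List.range (k ^ s)).flatMap fun b => f (a * k ^ s + b)

/-- the pattern of a block -/
lemma pat2 {T : Transducer Q} {k : ℕ} (hk : 2 ≤ k) {f : ℕ → List ℤ} (hT : T.Computes k f)
    {a0 s : ℕ} (hs : 1 ≤ s) (ha0 : 1 ≤ a0) :
    ∃ π : List (List ℤ ⊕ Q), ∀ a, 1 ≤ a → beh T k a = beh T k a0 →
      blk f k a s = ev (wd T k a) π := by
  have h1 : ∀ M ≤ k ^ s, ∃ π : List (List ℤ ⊕ Q), ∀ a, 1 ≤ a → beh T k a = beh T k a0 →
      ((List.range M).flatMap fun b => f (a * k ^ s + b)) = ev (wd T k a) π := by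
    intro M
    induction M with
    | zero => exact fun _ => ⟨[], fun a _ _ => rfl⟩
    | succ M ih =>
      intro hM
      obtain ⟨π, hπ⟩ := ih (by omega)
      obtain ⟨π', hπ'⟩ := pat1 hk hT (b := M) hs ha0 (by omega)
      refine ⟨π ++ π', fun a ha hab => ?_⟩
      rw [List.range_succ, List.flatMap_append, hπ a ha hab, ev_append, ← hπ' a ha hab]
      simp
  exact h1 _ le_rfl

end Pool.Agent.HS38.TT
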