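import Pool.Agent.HS38.TT.Defs

/-!
# Runs and excursions of a two-way transducer
-/

set_option autoImplicit false

namespace Pool.Agent.HS38.TT

variable {Q : Type}

/-- a halting run, the head stays on the cells up to `hi` -/
inductive Run (T : Transducer Q) (c : ℤ → Option ℕ) (hi : ℤ) : ℕ → Q → ℤ → List ℤ → Prop
  | halt {q : Q} {p : ℤ} (hp : p ≤ hi) (h : T.step q (c p) = none) : Run T c hi 0 q p []
  | step {t : ℕ} {q : Q} {p : ℤ} {q' : Q} {m : SignType} {w w' : List ℤ} (hp : p ≤ hi)
      (h : T.step q (c p) = some (q', m, w)) (h' : Run T c hi t q' (p + (m : ℤ)) w') :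
      Run T c hi (t + 1) q p (w ++ w')

/-- a run on the cells `lo, …, hi`, until the head leaves them to the left, or until the machine
halts -/
inductive Exc (T : Transducer Q) (c : ℤ → Option ℕ) (lo hi : ℤ) :
    ℕ → Q → ℤ → Option Q → List ℤ → Prop
  | out {q : Q} {p : ℤ} (hp : p < lo) : Exc T c lo hi 0 q p (some q) []
  | halt {q : Q} {p : ℤ} (hp1 : lo ≤ p) (hp : p ≤ hi) (h : T.step q (c p) = none) :
      Exc T c lo hi 0 q p none []
  | step {t : ℕ} {q : Q} {p : ℤ} {q' : Q} {m : SignType} {r : Option Q} {w w' : List ℤ}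
      (hp1 : lo ≤ p) (hp : p ≤ hi) (h : T.step q (c p) = some (q', m, w))
      (h' : Exc T c lo hi t q' (p + (m : ℤ)) r w') : Exc T c lo hi (t + 1) q p r (w ++ w')

variable {T : Transducer Q} {c c' : ℤ → Option ℕ} {lo hi : ℤ}

lemma sign_le (m : SignType) : -1 ≤ (m : ℤ) ∧ (m : ℤ) ≤ 1 := by
  revert m
  decide

/-- the run given by the configurations -/
lemma run_of_conf (hi : ℤ) (t : ℕ) : ∀ s : Q × ℤ × List ℤ, (∀ t', ((T.next c)^[t'] s).2.1 ≤ hi) →
    T.step ((T.next c)^[t] s).1 (c ((T.next c)^[t] s).2.1) = none →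
    ∃ t' w, Run T c hi t' s.1 s.2.1 w ∧ ((T.next c)^[t] s).2.2 = s.2.2 ++ w := by
  induction t with
  | zero =>
    intro s hs h
    exact ⟨0, [], Run.halt (hs 0) h, by simp⟩
  | succ t ih =>
    intro s hs h
    rw [Function.iterate_succ_apply] at h ⊢
    have hs' : ∀ t', ((T.next c)^[t'] (T.next c s)).2.1 ≤ hi := fun t' => by
      have := hs (t' + 1)
      rwa [Function.iterate_succ_apply] at this
    obtain ⟨t', w, h1, h2⟩ := ih (T.next c s) hs' h
    cases hst : T.step s.1 (c s.2.1) with
    | none =>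
      have e : T.next c s = s := by
        unfold Transducer.next
        rw [hst]
      rw [e] at h1 h2 ⊢
      exact ⟨t', w, h1, h2⟩
    | some r =>
      have e : T.next c s = (r.1, s.2.1 + ((r.2.1 : SignType) : ℤ), s.2.2 ++ r.2.2) := by
        unfold Transducer.next
        rw [hst]
      rw [e] at h1 h2 ⊢
      refine ⟨t' + 1, r.2.2 ++ w, Run.step (hs 0) (q' := r.1) (m := r.2.1) (w := r.2.2) hst h1, ?_⟩
      rw [h2, List.append_assoc]

lemma run_det {t : ℕ} {q : Q} {p : ℤ} {w : List ℤ} (h : Run T c hi t q p w) :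
    ∀ {t' : ℕ} {w' : List ℤ}, Run T c hi t' q p w' → w = w' := by
  induction h with
  | halt hp h =>
    intro t' w' h'
    cases h' with
    | halt _ _ => rfl
    | step _ h2 _ => rw [h] at h2; exact absurd h2 (by simp)
  | step hp h h1 ih =>
    intro t' w' h'
    cases h' with
    | halt _ h2 => rw [h] at h2; exact absurd h2 (by simp)
    | step _ h2 h3 =>
      rw [h] at h2
      rw [Option.some.injEq, Prod.mk.injEq, Prod.mk.injEq] at h2
      obtain ⟨rfl, rfl, rfl⟩ := h2
      rw [ih h3]

lemma exc_det {t : ℕ} {q : Q} {p : ℤ} {r : Option Q} {w : List ℤ} (h : Exc T c lo hi t q p r w) :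
    ∀ {t' : ℕ} {r' : Option Q} {w' : List ℤ}, Exc T c lo hi t' q p r' w' →
      t = t' ∧ r = r' ∧ w = w' := by
  induction h with
  | out hp =>
    intro t' r' w' h'
    cases h' with
    | out _ => exact ⟨rfl, rfl, rfl⟩
    | halt hp1 _ _ => omega
    | step hp1 _ _ _ => omega
  | halt hp1 hp h =>
    intro t' r' w' h'
    cases h' with
    | out _ => omega
    | halt _ _ _ => exact ⟨rfl, rfl, rfl⟩
    | step _ _ h2 _ => rw [h] at h2; exact absurd h2 (by simp)
  | step hp1 hp h h1 ih =>
    intro t' r' w' h'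
    cases h' with
    | out _ => omega
    | halt _ _ h2 => rw [h] at h2; exact absurd h2 (by simp)
    | step _ _ h2 h3 =>
      rw [h] at h2
      rw [Option.some.injEq, Prod.mk.injEq, Prod.mk.injEq] at h2
      obtain ⟨rfl, rfl, rfl⟩ := h2
      obtain ⟨h4, h5, h6⟩ := ih h3
      exact ⟨by rw [h4], h5, by rw [h6]⟩

/-- the first excursion of a run -/
lemma split (lo : ℤ) {t : ℕ} {q : Q} {p : ℤ} {w : List ℤ} (h : Run T c hi t q p w) :
    lo - 1 ≤ p → Exc T c lo hi t q p none w ∨
      ∃ (t1 t2 : ℕ) (r : Q) (w1 w2 : List ℤ), Exc T c lo hi t1 q p (some r) w1 ∧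
        Run T c hi t2 r (lo - 1) w2 ∧ w = w1 ++ w2 ∧ t2 ≤ t := by
  induction h with
  | @halt q p hp h =>
    intro hlo
    by_cases hc : lo ≤ p
    · exact Or.inl (Exc.halt hc hp h)
    · right
      have e : p = lo - 1 := by omega
      subst e
      exact ⟨0, 0, q, [], [], Exc.out (by omega), Run.halt hp h, rfl, le_rfl⟩
  | @step t q p q' m w w' hp h h1 ih =>
    intro hlo
    by_cases hc : lo ≤ p
    · have hm := sign_le m
      rcases ih (by omega) with h2 | ⟨t1, t2, r, w1, w2, h2, h3, h4, h5⟩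
      · exact Or.inl (Exc.step hc hp h h2)
      · right
        refine ⟨t1 + 1, t2, r, w ++ w1, w2, Exc.step hc hp h h2, h3, ?_, by omega⟩
        rw [h4, List.append_assoc]
    · right
      have e : p = lo - 1 := by omega
      subst e
      exact ⟨0, t + 1, q, [], w ++ w', Exc.out (by omega), Run.step hp h h1, rfl, le_rfl⟩

lemma run_of_none {t : ℕ} {q : Q} {p : ℤ} {r : Option Q} {w : List ℤ}
    (h : Exc T c lo hi t q p r w) : r = none → Run T c hi t q p w := by
  induction h with
  | out hp => intro h; exact absurd h (by simp)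
  | halt hp1 hp h => exact fun _ => Run.halt hp h
  | step hp1 hp h h1 ih => exact fun hr => Run.step hp h (ih hr)

lemma run_of_some {t : ℕ} {q : Q} {p : ℤ} {r : Option Q} {w : List ℤ}
    (h : Exc T c lo hi t q p r w) : ∀ {q2 : Q} {t2 : ℕ} {w2 : List ℤ}, r = some q2 → lo - 1 ≤ p →
      Run T c hi t2 q2 (lo - 1) w2 → ∃ t3, Run T c hi t3 q p (w ++ w2) := by
  induction h with
  | @out q p hp =>
    intro q2 t2 w2 hr hlo h2
    rw [Option.some.injEq] at hr
    subst hr
    have e : p = lo - 1 := by omega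
    subst e
    exact ⟨t2, h2⟩
  | halt hp1 hp h => intro q2 t2 w2 hr; exact absurd hr (by simp)
  | @step t q p q' m r w w' hp1 hp h h1 ih =>
    intro q2 t2 w2 hr hlo h2
    have hm := sign_le m
    obtain ⟨t3, h3⟩ := ih hr (by omega) h2
    refine ⟨t3 + 1, ?_⟩
    rw [List.append_assoc]
    exact Run.step hp h h3

/-- translation -/
lemma exc_shift {lo' hi' : ℤ} (hc : ∀ j : ℤ, 0 ≤ j → c (lo + j) = c' (lo' + j))
    (hh : hi - lo = hi' - lo') {t : ℕ} {q : Q} {p : ℤ} {r : Option Q} {w : List ℤ}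
    (h : Exc T c lo hi t q p r w) : ∀ p' : ℤ, p' - lo' = p - lo → Exc T c' lo' hi' t q p' r w := by
  induction h with
  | out hp => intro p' hp'; exact Exc.out (by omega)
  | @halt q p hp1 hp h =>
    intro p' hp'
    refine Exc.halt (by omega) (by omega) ?_
    rw [← h]
    have h1 := hc (p - lo) (by omega)
    rw [show lo + (p - lo) = p by ring, show lo' + (p - lo) = p' by omega] at h1
    rw [h1]
  | @step t q p q' m r w w' hp1 hp h h1 ih =>
    intro p' hp'
    refine Exc.step (by omega) (by omega) ?_ (ih (p' + (m : ℤ)) (by omega))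
    rw [← h]
    have h1 := hc (p - lo) (by omega)
    rw [show lo + (p - lo) = p by ring, show lo' + (p - lo) = p' by omega] at h1
    rw [h1]

/-- the configurations of an excursion -/
lemma exc_conf {t : ℕ} {q : Q} {p : ℤ} {r : Option Q} {w : List ℤ} (h : Exc T c lo hi t q p r w) :
    ∀ i < t, ∃ (q' : Q) (p' : ℤ) (w' : List ℤ), lo ≤ p' ∧ p' ≤ hi ∧
      Exc T c lo hi (t - i) q' p' r w' := by
  induction h with
  | out hp => intro i hi; omega
  | halt hp1 hp h => intro i hi; omega
  | @step t q p q' m r w w' hp1 hp h h1 ih =>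
    intro i hi
    rcases Nat.eq_zero_or_pos i with h0 | h0
    · subst h0
      exact ⟨q, p, _, hp1, hp, Exc.step hp1 hp h h1⟩
    · obtain ⟨q2, p2, w2, h2, h3, h4⟩ := ih (i - 1) (by omega)
      refine ⟨q2, p2, w2, h2, h3, ?_⟩
      rw [show t + 1 - i = t - (i - 1) by omega]
      exact h4

/-- the length of an excursion -/
lemma exc_time [Fintype Q] {t : ℕ} {q : Q} {p : ℤ} {r : Option Q} {w : List ℤ}
    (h : Exc T c lo hi t q p r w) : t ≤ Fintype.card Q * (hi - lo + 1).toNat := by
  classical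
  have hne : Nonempty Q := ⟨q⟩
  have h1 := exc_conf h
  choose! q' p' w' hlo hhi hexc using h1
  have h2 : (Finset.range t).card ≤
      ((Finset.univ : Finset Q) ×ˢ (Finset.Icc lo hi)).card := by
    apply Finset.card_le_card_of_injOn (fun i => (q' i, p' i))
    · intro i hi
      rw [Finset.mem_coe, Finset.mem_range] at hi
      rw [Finset.mem_coe, Finset.mem_product, Finset.mem_Icc]
      exact ⟨Finset.mem_univ _, hlo i hi, hhi i hi⟩
    · intro i hi j hj hij
      rw [Finset.mem_coe, Finset.mem_range] at hi hj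
      have h3 := hexc i hi
      have h4 := hexc j hj
      simp only [Prod.mk.injEq] at hij
      rw [hij.1, hij.2] at h3
      have := (exc_det h3 h4).1
      omega
  rw [Finset.card_range, Finset.card_product, Finset.card_univ, Int.card_Icc] at h2
  rw [show hi - lo + 1 = hi + 1 - lo by ring]
  exact h2

lemma exc_len {W : ℕ} (hW : ∀ q p q' m w, T.step q (c p) = some (q', m, w) → w.length ≤ W) {t : ℕ}
    {q : Q} {p : ℤ} {r : Option Q} {w : List ℤ} (h : Exc T c lo hi t q p r w) :
    w.length ≤ W * t := by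
  induction h with
  | out hp => simp
  | halt hp1 hp h => simp
  | @step t q p q' m r w w' hp1 hp h h1 ih =>
    have h2 := hW q p q' m w h
    rw [List.length_append, mul_add, mul_one]
    omega

end Pool.Agent.HS38.TT
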